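import Pool.Agent.H31.SW.Tools

/-!
# A sub-Weyl bound for Hecke L-functions: bounds for the amplitudes
-/

set_option autoImplicit false
set_option linter.unusedVariables false

open NumberField NumberField.InfinitePlace MeasureTheory Set Filter Complex
open scoped Topology

namespace Pool.Agent.H31.SW

open Pool.Agent.H29.DW (dg Rl lf)

namespace GBaux

theorem isOpen_O3 : IsOpen O3 :=
  Metric.isOpen_ball.prod (Metric.isOpen_ball.prod Metric.isOpen_ball)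

theorem isOpen_far : IsOpen {q : ℂ × ℂ × ℂ | 1 / 10000 < ‖q.2.2 - 1‖} :=
  isOpen_lt continuous_const (by fun_prop)

/-- the derivative of an amplitude in the direction `(0, 0, d)` is an amplitude -/
theorem gc_deriv {g : ℂ × ℂ × ℂ → ℂ} (hg : GC g) (d : ℂ) :
    GC (fun q => fderiv ℝ g q (0, 0, d)) := by
  refine ⟨fun n => ?_, fun a η w hw => ?_⟩
  · exact ((hg.1 (n + 1)).fderiv_of_isOpen (m := n) isOpen_O3
      (by push_cast; exact le_rfl)).clm_apply contDiffOn_const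
  · have h1 : g =ᶠ[𝓝 (a, η, w)] fun _ => 0 := by
      have hq : ((a, η, w) : ℂ × ℂ × ℂ) ∈ {q : ℂ × ℂ × ℂ | 1 / 10000 < ‖q.2.2 - 1‖} := hw
      filter_upwards [isOpen_far.mem_nhds hq] with q hq'
      exact hg.2 q.1 q.2.1 q.2.2 hq'
    show fderiv ℝ g (a, η, w) (0, 0, d) = 0
    rw [h1.fderiv_eq]
    simp

theorem mem_O3 {a η w : ℂ} (ha : ‖a‖ ≤ 1 / 10000) (hη : ‖η - 1‖ ≤ 1 / 100)
    (hw : ‖w - 1‖ < 1 / 100) : ((a, η, w) : ℂ × ℂ × ℂ) ∈ O3 := by
  refine ⟨?_, ?_, ?_⟩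
  · rw [Metric.mem_ball, dist_eq_norm, sub_zero]
    exact lt_of_le_of_lt ha (by norm_num)
  · rw [Metric.mem_ball, dist_eq_norm]
    exact lt_of_le_of_lt hη (by norm_num)
  · rw [Metric.mem_ball, dist_eq_norm]
    exact hw

/-- the partial derivatives with respect to `w` -/
theorem hd_w {g : ℂ × ℂ × ℂ → ℂ} (hg : GC g) {a η : ℂ} (ha : ‖a‖ ≤ 1 / 10000)
    (hη : ‖η - 1‖ ≤ 1 / 100) (w : ℂ) :
    HD (fun w => g (a, η, w)) (fun w => fderiv ℝ g (a, η, w) (0, 0, 1))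
      (fun w => fderiv ℝ g (a, η, w) (0, 0, I)) w := by
  by_cases hw : ‖w - 1‖ < 1 / 100
  · have hq := mem_O3 ha hη hw
    have h1 : DifferentiableAt ℝ g (a, η, w) :=
      ((hg.1 1).differentiableOn (by norm_num)).differentiableAt (isOpen_O3.mem_nhds hq)
    have h2 : HasFDerivAt (fun w : ℂ => ((a, η, w) : ℂ × ℂ × ℂ))
        ((0 : ℂ →L[ℝ] ℂ).prod ((0 : ℂ →L[ℝ] ℂ).prod (ContinuousLinearMap.id ℝ ℂ))) w :=
      (hasFDerivAt_const a w).prodMk ((hasFDerivAt_const η w).prodMk (hasFDerivAt_id w))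
    refine hd_iff (HasFDerivAt.comp w h1.hasFDerivAt h2) ?_ ?_
    · rfl
    · rfl
  · have hw' : 1 / 10000 < ‖w - 1‖ := lt_of_lt_of_le (by norm_num) (not_lt.1 hw)
    have h1 : (fun w => g (a, η, w)) =ᶠ[𝓝 w] fun _ => 0 := by
      have hopen : IsOpen {w : ℂ | 1 / 10000 < ‖w - 1‖} :=
        isOpen_lt continuous_const (by fun_prop)
      have hmem : w ∈ {w : ℂ | 1 / 10000 < ‖w - 1‖} := hw'
      filter_upwards [hopen.mem_nhds hmem] with z hz
      exact hg.2 a η z hz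
    refine HD.congr (hd_of_eq (hd_const 0 w) ?_ ?_) h1
    · exact ((gc_deriv hg 1).2 a η w hw').symm
    · exact ((gc_deriv hg I).2 a η w hw').symm

/-- a bound for an amplitude -/
theorem bound_w {g : ℂ × ℂ × ℂ → ℂ} (hg : GC g) : ∃ C : ℝ, 0 ≤ C ∧ ∀ a η w : ℂ,
    ‖a‖ ≤ 1 / 10000 → ‖η - 1‖ ≤ 1 / 100 → ‖g (a, η, w)‖ ≤ ind 1 (1 / 10000) C w := by
  have hK : IsCompact (Metric.closedBall (0 : ℂ) (1 / 10000) ×ˢ
      (Metric.closedBall (1 : ℂ) (1 / 100) ×ˢ Metric.closedBall (1 : ℂ) (1 / 10000))) :=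
    (isCompact_closedBall _ _).prod ((isCompact_closedBall _ _).prod (isCompact_closedBall _ _))
  have hsub : (Metric.closedBall (0 : ℂ) (1 / 10000) ×ˢ
      (Metric.closedBall (1 : ℂ) (1 / 100) ×ˢ Metric.closedBall (1 : ℂ) (1 / 10000))) ⊆ O3 := by
    rintro ⟨a, η, w⟩ ⟨ha, hη, hw⟩
    rw [Metric.mem_closedBall, dist_eq_norm] at ha hη hw
    rw [sub_zero] at ha
    exact mem_O3 ha hη (lt_of_le_of_lt hw (by norm_num))
  obtain ⟨C, hC⟩ := hK.exists_bound_of_continuousOn ((hg.1 0).continuousOn.mono hsub)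
  refine ⟨max C 0, le_max_right _ _, fun a η w ha hη => ?_⟩
  by_cases hw : ‖w - 1‖ ≤ 1 / 10000
  · rw [ind_of_mem hw]
    refine (hC (a, η, w) ⟨?_, ?_, ?_⟩).trans (le_max_left _ _)
    · rw [Metric.mem_closedBall, dist_eq_norm, sub_zero]
      exact ha
    · rw [Metric.mem_closedBall, dist_eq_norm]
      exact hη
    · rw [Metric.mem_closedBall, dist_eq_norm]
      exact hw
  · rw [ind_of_not_mem (not_le.1 hw), hg.2 a η w (not_le.1 hw), norm_zero]

end GBaux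

open GBaux in
/-- (GB) bounds for the amplitudes. -/
theorem pf_GB : W_GB := by
  intro g hg n
  induction n generalizing g with
  | zero =>
    obtain ⟨C, hC, h⟩ := bound_w hg
    refine ⟨C, hC, fun a η ha hη => ⟨?_, fun w _ => h a η w ha hη⟩⟩
    exact fun w _ => (hd_w hg ha hη w).continuousAt.continuousWithinAt
  | succ n ih =>
    obtain ⟨C₀, hC₀, h0⟩ := bound_w hg
    obtain ⟨C₁, hC₁, h1⟩ := ih _ (gc_deriv hg 1)
    obtain ⟨C₂, hC₂, h2⟩ := ih _ (gc_deriv hg I)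
    refine ⟨max C₀ (max C₁ C₂), hC₀.trans (le_max_left _ _), fun a η ha hη => ?_⟩
    refine ⟨fun w _ => ?_, fun w => fderiv ℝ g (a, η, w) (0, 0, 1),
      fun w => fderiv ℝ g (a, η, w) (0, 0, I), fun w _ => hd_w hg ha hη w, ?_, ?_⟩
    · exact (h0 a η w ha hη).trans
        (ind_mono (le_max_left _ _) (hC₀.trans (le_max_left _ _)) le_rfl)
    · exact DS.mono (h1 a η ha hη) ((le_max_left _ _).trans (le_max_right _ _))
        (hC₀.trans (le_max_left _ _)) le_rfl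
    · exact DS.mono (h2 a η ha hη) ((le_max_right _ _).trans (le_max_right _ _))
        (hC₀.trans (le_max_left _ _)) le_rfl

end Pool.Agent.H31.SW
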