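import Pool.Agent.H31.SW.Tools
import Mathlib.RingTheory.Complex
import Mathlib.MeasureTheory.Measure.Lebesgue.EqHaar

/-!
# A sub-Weyl bound for Hecke L-functions: the substitution `ζ = Λ η`
-/

set_option autoImplicit false
set_option linter.unusedVariables false

open NumberField NumberField.InfinitePlace MeasureTheory Set Filter Complex
open scoped Topology

namespace Pool.Agent.H31.SW

open Pool.Agent.H29.DW (dg Rl lf)

theorem integral_mul_sb (Λ : ℂ) (hΛ : Λ ≠ 0) (G : ℂ → ℂ) :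
    ∫ w : ℂ, G w = ((‖Λ‖ ^ 2 : ℝ) : ℂ) * ∫ η : ℂ, G (Λ * η) := by
  have hdet : LinearMap.det (LinearMap.mulLeft ℝ Λ) = Complex.normSq Λ := by
    rw [← Algebra.norm_complex_apply]
    rfl
  have hn : Complex.normSq Λ ≠ 0 := by
    rw [Ne, Complex.normSq_eq_zero]
    exact hΛ
  have hmap := Measure.map_linearMap_addHaar_eq_smul_addHaar (μ := (volume : Measure ℂ))
    (f := LinearMap.mulLeft ℝ Λ) (by rw [hdet]; exact hn)
  have hemb := (Homeomorph.mulLeft₀ Λ hΛ).measurableEmbedding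
  have h1 := hemb.integral_map (μ := (volume : Measure ℂ)) G
  have h2 : Measure.map (⇑(Homeomorph.mulLeft₀ Λ hΛ)) (volume : Measure ℂ) =
      Measure.map (⇑(LinearMap.mulLeft ℝ Λ)) (volume : Measure ℂ) := rfl
  rw [h2, hmap, hdet, integral_smul_measure] at h1
  have h3 : (∫ x : ℂ, G ((Homeomorph.mulLeft₀ Λ hΛ) x)) = ∫ η : ℂ, G (Λ * η) := rfl
  rw [h3] at h1
  rw [← h1, Complex.normSq_eq_norm_sq, ENNReal.toReal_ofReal (abs_nonneg _),
    abs_of_nonneg (by positivity), Complex.real_smul, ← mul_assoc]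
  have h4 : (((‖Λ‖ ^ 2 : ℝ) : ℂ) * (((‖Λ‖ ^ 2)⁻¹ : ℝ) : ℂ)) = 1 := by
    rw [← Complex.ofReal_mul, mul_inv_cancel₀, Complex.ofReal_one]
    exact pow_ne_zero 2 (norm_ne_zero_iff.2 hΛ)
  rw [h4, one_mul]

/-- (SB) the substitution `ζ = Λ η`. -/
theorem pf_SB : W_SB := by
  intro r Λ G hΛ hR
  cases r
  · rw [itg_false, itg_false, integral_mul_sb Λ hΛ G]
    have : dg false = 2 := rfl
    rw [this]
    ring
  · have h1 : Λ.im = 0 := hR rfl
    have h2 : Λ = ((Λ.re : ℝ) : ℂ) := by apply Complex.ext <;> simp [h1]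
    have h3 : Λ.re ≠ 0 := by
      intro h
      apply hΛ
      rw [h2, h, Complex.ofReal_zero]
    have hdg : dg true = 1 := rfl
    rw [itg_true, itg_true, hdg, pow_one]
    have h4 := Measure.integral_comp_mul_left (fun x : ℝ => G x) Λ.re
    have h5 : (fun x : ℝ => (fun x : ℝ => G (x : ℂ)) (Λ.re * x)) =
        fun x : ℝ => G (Λ * (x : ℂ)) := by
      funext x
      simp only [Complex.ofReal_mul]
      rw [← h2]
    have h4' : (∫ x : ℝ, G (Λ * (x : ℂ))) = |Λ.re⁻¹| • ∫ y : ℝ, G y := by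
      rw [← h4, ← h5]
    rw [h4', Complex.real_smul, ← mul_assoc, ← Complex.ofReal_mul]
    have h6 : ‖Λ‖ * |Λ.re⁻¹| = 1 := by
      rw [h2, Complex.norm_real, Complex.ofReal_re, Real.norm_eq_abs, ← abs_mul,
        mul_inv_cancel₀ h3, abs_one]
    rw [h6, Complex.ofReal_one, one_mul]

end Pool.Agent.H31.SW
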