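import Pool.Agent.H31.SW.Tools

/-!
# A sub-Weyl bound for Hecke L-functions: the stationary point
-/

set_option autoImplicit false
set_option linter.unusedVariables false

open NumberField NumberField.InfinitePlace MeasureTheory Set Filter Complex
open scoped Topology

namespace Pool.Agent.H31.SW

open Pool.Agent.H29.DW (dg Rl lf)

namespace UDaux

/-- the inverse of a number near `1` -/
theorem norm_inv_sub_one {η : ℂ} {δ ε : ℝ} (h : ‖η - 1‖ ≤ δ) (hδ : δ < 1)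
    (hε : δ ≤ ε * (1 - δ)) : ‖η⁻¹ - 1‖ ≤ ε := by
  have h1 : 1 - δ ≤ ‖η‖ := by
    have h2 : (1 : ℝ) ≤ ‖η‖ + ‖η - 1‖ := by
      calc (1 : ℝ) = ‖(1 : ℂ)‖ := norm_one.symm
        _ = ‖η - (η - 1)‖ := by congr 1; ring
        _ ≤ ‖η‖ + ‖η - 1‖ := norm_sub_le _ _
    linarith
  have h2 : 0 < ‖η‖ := by linarith
  have h3 : η ≠ 0 := norm_pos_iff.1 h2
  have h4 : η⁻¹ - 1 = -(η - 1) / η := by
    field_simp
    ring
  rw [h4, norm_div, norm_neg, div_le_iff₀ h2]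
  have h5 : 0 ≤ δ := (norm_nonneg _).trans h
  have h6 : 0 ≤ ε := by
    by_contra h7
    have h8 : ε * (1 - δ) < 0 := mul_neg_of_neg_of_pos (not_le.1 h7) (by linarith)
    linarith
  calc ‖η - 1‖ ≤ δ := h
    _ ≤ ε * (1 - δ) := hε
    _ ≤ ε * ‖η‖ := mul_le_mul_of_nonneg_left h1 h6

/-- the square root -/
theorem sqrt_near {z : ℂ} {δ : ℝ} (h : ‖z - 1‖ ≤ δ) (hδ : δ ≤ 1 / 10) :
    cexp (Complex.log z / 2) ^ 2 = z ∧
      ‖cexp (Complex.log z / 2) - 1‖ * (2 - δ) ≤ δ := by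
  have hre : 1 - δ ≤ z.re := by
    have h1 := Complex.abs_re_le_norm (z - 1)
    rw [Complex.sub_re, Complex.one_re] at h1
    have h2 := (abs_le.1 (h1.trans h)).1
    linarith
  have hpos : 0 < z.re := by linarith
  have hz : z ≠ 0 := by
    intro h0
    rw [h0, Complex.zero_re] at hpos
    exact lt_irrefl _ hpos
  have hslit : z ∈ Complex.slitPlane := Or.inl hpos
  have hsq : cexp (Complex.log z / 2) ^ 2 = z := by
    rw [← Complex.exp_nat_mul]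
    have : ((2 : ℕ) : ℂ) * (Complex.log z / 2) = Complex.log z := by
      push_cast
      ring
    rw [this, Complex.exp_log hz]
  refine ⟨hsq, ?_⟩
  set U : ℂ := cexp (Complex.log z / 2) with hU
  have hUre : 0 < U.re := by
    rw [hU, Complex.exp_re]
    refine mul_pos (Real.exp_pos _) ?_
    have him : (Complex.log z / 2).im = z.arg / 2 := by
      rw [← Complex.log_im]
      simp
    rw [him]
    have h1 := Complex.neg_pi_lt_arg z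
    have h2 := Complex.arg_le_pi z
    have h3 := (Complex.mem_slitPlane_iff_arg.1 hslit).1
    have h4 : z.arg < Real.pi := lt_of_le_of_ne h2 h3
    exact Real.cos_pos_of_mem_Ioo ⟨by linarith, by linarith⟩
  have hprod : ‖U - 1‖ * ‖U + 1‖ ≤ δ := by
    rw [← norm_mul]
    have : (U - 1) * (U + 1) = z - 1 := by
      rw [← hsq]
      ring
    rw [this]
    exact h
  have hge : ∀ t : ℝ, t ≤ U.re → t + 1 ≤ ‖U + 1‖ := by
    intro t ht
    have h1 := (le_abs_self _).trans (Complex.abs_re_le_norm (U + 1))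
    rw [Complex.add_re, Complex.one_re] at h1
    linarith
  have h0 := norm_nonneg (U - 1)
  have h1 : ‖U - 1‖ ≤ δ := by
    have h2 := hge 0 hUre.le
    nlinarith
  have h2 : 1 - δ ≤ U.re := by
    have h3 := Complex.abs_re_le_norm (U - 1)
    rw [Complex.sub_re, Complex.one_re] at h3
    have h4 := (abs_le.1 (h3.trans h1)).1
    linarith
  have h3 := hge _ h2
  have h4 : 2 - δ ≤ ‖U + 1‖ := by linarith
  calc ‖U - 1‖ * (2 - δ) ≤ ‖U - 1‖ * ‖U + 1‖ := mul_le_mul_of_nonneg_left h4 h0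
    _ ≤ δ := hprod

/-- the argument of the square root is near `1` -/
theorem arg_near {a η : ℂ} (ha : ‖a‖ ≤ 1 / 100) (hη : η ∈ Metric.ball (1 : ℂ) (1 / 50)) :
    ‖a ^ 2 + η⁻¹ - 1‖ ≤ 206 / 10000 := by
  rw [Metric.mem_ball, dist_eq_norm] at hη
  have h1 : ‖η⁻¹ - 1‖ ≤ 1 / 49 := norm_inv_sub_one hη.le (by norm_num) (by norm_num)
  have h2 : ‖a ^ 2‖ ≤ (1 / 100) ^ 2 := by
    rw [norm_pow]
    exact pow_le_pow_left₀ (norm_nonneg _) ha 2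
  have h3 : a ^ 2 + η⁻¹ - 1 = a ^ 2 + (η⁻¹ - 1) := by ring
  rw [h3]
  refine (norm_add_le _ _).trans ?_
  norm_num at h1 h2 ⊢
  linarith

theorem arg_slit {a η : ℂ} (ha : ‖a‖ ≤ 1 / 100) (hη : η ∈ Metric.ball (1 : ℂ) (1 / 50)) :
    a ^ 2 + η⁻¹ ∈ Complex.slitPlane := by
  left
  have h1 := Complex.abs_re_le_norm (a ^ 2 + η⁻¹ - 1)
  have h2 := h1.trans (arg_near ha hη)
  rw [Complex.sub_re, Complex.one_re] at h2
  have h3 := (abs_le.1 h2).1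
  linarith

theorem ne_zero_of_ball {η : ℂ} (hη : η ∈ Metric.ball (1 : ℂ) (1 / 50)) : η ≠ 0 := by
  rintro rfl
  rw [Metric.mem_ball, dist_eq_norm, zero_sub, norm_neg, norm_one] at hη
  norm_num at hη

theorem UU_ne (a η : ℂ) : UU a η ≠ 0 := Complex.exp_ne_zero _

theorem UU_sq {a η : ℂ} (ha : ‖a‖ ≤ 1 / 100) (hη : η ∈ Metric.ball (1 : ℂ) (1 / 50)) :
    UU a η ^ 2 = a ^ 2 + η⁻¹ := (sqrt_near (arg_near ha hη) (by norm_num)).1

theorem part1 {a η : ℂ} (ha : ‖a‖ ≤ 1 / 100) (hη : η ∈ Metric.ball (1 : ℂ) (1 / 50)) :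
    UU a η ^ 2 = a ^ 2 + η⁻¹ ∧ ‖UU a η - 1‖ < 1 / 50 := by
  refine ⟨UU_sq ha hη, ?_⟩
  have h := (sqrt_near (arg_near ha hη) (by norm_num)).2
  have h2 : ‖UU a η - 1‖ * (2 - 206 / 10000) ≤ 206 / 10000 := h
  have h3 := norm_nonneg (UU a η - 1)
  nlinarith

theorem part2 (n : ℕ) : ContDiffOn ℝ n (fun q : ℂ × ℂ => UU q.1 q.2)
    (Metric.ball (0 : ℂ) (1 / 100) ×ˢ Metric.ball (1 : ℂ) (1 / 50)) := by
  have h : ContDiffOn ℂ n (fun q : ℂ × ℂ => UU q.1 q.2)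
      (Metric.ball (0 : ℂ) (1 / 100) ×ˢ Metric.ball (1 : ℂ) (1 / 50)) := by
    rintro ⟨a, η⟩ ⟨ha, hη⟩
    have ha' : ‖a‖ ≤ 1 / 100 := by
      have := ha
      rw [Metric.mem_ball, dist_eq_norm, sub_zero] at this
      exact this.le
    have hη' : η ∈ Metric.ball (1 : ℂ) (1 / 50) := hη
    have h0 : η ≠ 0 := ne_zero_of_ball hη'
    have hs := arg_slit ha' hη'
    have h1 : ContDiffAt ℂ n (fun q : ℂ × ℂ => q.1 ^ 2 + q.2⁻¹) (a, η) :=
      (contDiffAt_fst.pow 2).add (contDiffAt_snd.inv h0)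
    have h2 : ContDiffAt ℂ n (fun q : ℂ × ℂ => Complex.log (q.1 ^ 2 + q.2⁻¹)) (a, η) :=
      ContDiffAt.comp (g := Complex.log) (a, η) (Complex.contDiffAt_log hs) h1
    exact ((h2.div_const 2).cexp).contDiffWithinAt
  exact h.restrict_scalars ℝ

/-- the derivative of the stationary point -/
theorem hasDerivAt_UU {a η : ℂ} (ha : ‖a‖ ≤ 1 / 100) (hη : η ∈ Metric.ball (1 : ℂ) (1 / 50)) :
    HasDerivAt (UU a) (-(1 / 2) * (η⁻¹ ^ 2 * (UU a η)⁻¹)) η := by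
  have h0 : η ≠ 0 := ne_zero_of_ball hη
  have h1 : HasDerivAt (fun η : ℂ => a ^ 2 + η⁻¹) (-(η ^ 2)⁻¹) η := by
    simpa using (hasDerivAt_inv h0).const_add (a ^ 2)
  have h2 := (h1.clog (arg_slit ha hη)).div_const 2
  have h3 := h2.cexp
  have h4 : (UU a) = fun η : ℂ => cexp (Complex.log (a ^ 2 + η⁻¹) / 2) := rfl
  rw [h4]
  refine h3.congr_deriv ?_
  have h5 : cexp (Complex.log (a ^ 2 + η⁻¹) / 2) = UU a η := rfl
  have h6 := UU_ne a η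
  simp only [h5]
  rw [← UU_sq ha hη]
  field_simp

/-- the monomials -/
noncomputable def mo (a : ℂ) (i j : ℕ) (η : ℂ) : ℂ := η⁻¹ ^ i * (UU a η)⁻¹ ^ j

theorem hasDerivAt_mo {a η : ℂ} (i j : ℕ) (ha : ‖a‖ ≤ 1 / 100)
    (hη : η ∈ Metric.ball (1 : ℂ) (1 / 50)) :
    HasDerivAt (mo a i j) (-(i : ℂ) * mo a (i + 1) j η + (j : ℂ) / 2 * mo a (i + 2) (j + 2) η)
      η := by
  have h0 : η ≠ 0 := ne_zero_of_ball hη
  have hU := UU_ne a η
  have h1 : HasDerivAt (fun η : ℂ => η⁻¹) (-(η ^ 2)⁻¹) η := hasDerivAt_inv h0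
  have h2 : HasDerivAt (fun η : ℂ => (UU a η)⁻¹)
      (-(-(1 / 2) * (η⁻¹ ^ 2 * (UU a η)⁻¹)) / (UU a η) ^ 2) η := (hasDerivAt_UU ha hη).fun_inv hU
  have h3 := (h1.fun_pow i).mul (h2.fun_pow j)
  refine h3.congr_deriv ?_
  unfold mo
  have e1 : (η ^ 2)⁻¹ = η⁻¹ ^ 2 := (inv_pow η 2).symm
  have e2 : -(-(1 / 2) * (η⁻¹ ^ 2 * (UU a η)⁻¹)) / UU a η ^ 2 =
      1 / 2 * (η⁻¹ ^ 2 * (UU a η)⁻¹ ^ 3) := by
    rw [div_eq_mul_inv, ← inv_pow]
    ring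
  rw [e1, e2]
  generalize η⁻¹ = s
  generalize (UU a η)⁻¹ = V
  rcases i with _ | i
  · rcases j with _ | j
    · simp
    · simp only [Nat.add_sub_cancel]
      push_cast
      ring
  · rcases j with _ | j
    · simp only [Nat.add_sub_cancel]
      push_cast
      ring
    · simp only [Nat.add_sub_cancel]
      push_cast
      ring

/-- products of numbers near `1` -/
theorem norm_mul_sub_one {x y : ℂ} {p q : ℝ} (hx : ‖x - 1‖ ≤ p - 1) (hy : ‖y - 1‖ ≤ q - 1) :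
    ‖x * y - 1‖ ≤ p * q - 1 := by
  have h1 : x * y - 1 = (x - 1) * (y - 1) + ((x - 1) + (y - 1)) := by ring
  have h2 : ‖(x - 1) * (y - 1)‖ ≤ (p - 1) * (q - 1) := by
    rw [norm_mul]
    exact mul_le_mul hx hy (norm_nonneg _) ((norm_nonneg _).trans hx)
  calc ‖x * y - 1‖ = ‖(x - 1) * (y - 1) + ((x - 1) + (y - 1))‖ := by rw [h1]
    _ ≤ ‖(x - 1) * (y - 1)‖ + (‖x - 1‖ + ‖y - 1‖) :=
        (norm_add_le _ _).trans (add_le_add le_rfl (norm_add_le _ _))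
    _ ≤ (p - 1) * (q - 1) + ((p - 1) + (q - 1)) := add_le_add h2 (add_le_add hx hy)
    _ = p * q - 1 := by ring

theorem norm_pow_sub_one {x : ℂ} {p : ℝ} (hx : ‖x - 1‖ ≤ p - 1) (n : ℕ) :
    ‖x ^ n - 1‖ ≤ p ^ n - 1 := by
  induction n with
  | zero => simp
  | succ n ih =>
    rw [pow_succ, pow_succ]
    exact norm_mul_sub_one ih hx

theorem mo_near {a η : ℂ} (ha : ‖a‖ ≤ 1 / 10000) (hη : η ∈ Metric.ball (1 : ℂ) (1 / 100))
    (i j : ℕ) : ‖mo a i j η - 1‖ ≤ (10102 / 10000) ^ i * (10053 / 10000) ^ j - 1 := by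
  rw [Metric.mem_ball, dist_eq_norm] at hη
  have h1 : ‖η⁻¹ - 1‖ ≤ 1 / 99 := norm_inv_sub_one hη.le (by norm_num) (by norm_num)
  have h2 : ‖a ^ 2‖ ≤ (1 / 10000) ^ 2 := by
    rw [norm_pow]
    exact pow_le_pow_left₀ (norm_nonneg _) ha 2
  have h3 : ‖a ^ 2 + η⁻¹ - 1‖ ≤ 10102 / 1000000 := by
    have h4 : a ^ 2 + η⁻¹ - 1 = a ^ 2 + (η⁻¹ - 1) := by ring
    rw [h4]
    refine (norm_add_le _ _).trans ?_
    norm_num at h1 h2 ⊢
    linarith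
  have h4 : ‖UU a η - 1‖ * (2 - 10102 / 1000000) ≤ 10102 / 1000000 :=
    (sqrt_near h3 (by norm_num)).2
  have h5 : ‖UU a η - 1‖ ≤ 51 / 10000 := by
    have := norm_nonneg (UU a η - 1)
    nlinarith
  have h6 : ‖(UU a η)⁻¹ - 1‖ ≤ 10053 / 10000 - 1 :=
    norm_inv_sub_one h5 (by norm_num) (by norm_num)
  have h7 : ‖η⁻¹ - 1‖ ≤ 10102 / 10000 - 1 := h1.trans (by norm_num)
  exact norm_mul_sub_one (norm_pow_sub_one h7 i) (norm_pow_sub_one h6 j)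

theorem mo_le {a η : ℂ} (ha : ‖a‖ ≤ 1 / 10000) (hη : η ∈ Metric.ball (1 : ℂ) (1 / 100))
    (i j : ℕ) : ‖mo a i j η‖ ≤ (10102 / 10000) ^ i * (10053 / 10000) ^ j := by
  have h1 := mo_near ha hη i j
  have h2 : ‖mo a i j η‖ ≤ ‖mo a i j η - 1‖ + 1 := by
    calc ‖mo a i j η‖ = ‖(mo a i j η - 1) + 1‖ := by congr 1; ring
      _ ≤ ‖mo a i j η - 1‖ + ‖(1 : ℂ)‖ := norm_add_le _ _
      _ = ‖mo a i j η - 1‖ + 1 := by rw [norm_one]
  linarith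

theorem part3 {a : ℂ} (ha : ‖a‖ ≤ 1 / 10000) : ∃ U₁ U₂ U₃ U₄ : ℂ → ℂ,
    ∀ η ∈ Metric.ball (1 : ℂ) (1 / 100),
    HasDerivAt (UU a) (U₁ η) η ∧ HasDerivAt U₁ (U₂ η) η ∧ HasDerivAt U₂ (U₃ η) η ∧
    HasDerivAt U₃ (U₄ η) η ∧ ‖U₃ η‖ ≤ 6 ∧ ‖U₄ η - 105 / 16‖ ≤ 3 := by
  have ha' : ‖a‖ ≤ 1 / 100 := ha.trans (by norm_num)
  refine ⟨fun η => -(1 / 2) * mo a 2 1 η, fun η => mo a 3 1 η - 1 / 4 * mo a 4 3 η,
    fun η => -3 * mo a 4 1 η + 3 / 2 * mo a 5 3 η - 3 / 8 * mo a 6 5 η,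
    fun η => 12 * mo a 5 1 η - 9 * mo a 6 3 η + 9 / 2 * mo a 7 5 η - 15 / 16 * mo a 8 7 η,
    fun η hη => ?_⟩
  have hη' : η ∈ Metric.ball (1 : ℂ) (1 / 50) := by
    rw [Metric.mem_ball] at hη ⊢
    exact hη.trans (by norm_num)
  refine ⟨?_, ?_, ?_, ?_, ?_, ?_⟩
  · have h := hasDerivAt_UU ha' hη'
    refine h.congr_deriv ?_
    simp only [mo, pow_one]
  · have h := (hasDerivAt_mo 2 1 ha' hη').const_mul (-(1 / 2) : ℂ)
    refine h.congr_deriv ?_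
    push_cast
    ring
  · have h := (hasDerivAt_mo 3 1 ha' hη').sub ((hasDerivAt_mo 4 3 ha' hη').const_mul (1 / 4 : ℂ))
    refine h.congr_deriv ?_
    push_cast
    ring
  · have h := (((hasDerivAt_mo 4 1 ha' hη').const_mul (-3 : ℂ)).add
      ((hasDerivAt_mo 5 3 ha' hη').const_mul (3 / 2 : ℂ))).sub
      ((hasDerivAt_mo 6 5 ha' hη').const_mul (3 / 8 : ℂ))
    refine h.congr_deriv ?_
    push_cast
    ring
  · have h1 := mo_le ha hη 4 1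
    have h2 := mo_le ha hη 5 3
    have h3 := mo_le ha hη 6 5
    have e1 : ‖-3 * mo a 4 1 η‖ = 3 * ‖mo a 4 1 η‖ := by
      rw [norm_mul, norm_neg, Complex.norm_ofNat]
    have e2 : ‖(3 / 2 : ℂ) * mo a 5 3 η‖ = 3 / 2 * ‖mo a 5 3 η‖ := by
      rw [norm_mul, norm_div, Complex.norm_ofNat, Complex.norm_ofNat]
    have e3 : ‖(3 / 8 : ℂ) * mo a 6 5 η‖ = 3 / 8 * ‖mo a 6 5 η‖ := by
      rw [norm_mul, norm_div, Complex.norm_ofNat, Complex.norm_ofNat]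
    have h4 := (norm_sub_le (-3 * mo a 4 1 η + 3 / 2 * mo a 5 3 η) (3 / 8 * mo a 6 5 η)).trans
      (add_le_add (norm_add_le _ _) le_rfl)
    rw [e1, e2, e3] at h4
    refine h4.trans ?_
    norm_num at h1 h2 h3 ⊢
    linarith
  · have h1 := mo_near ha hη 5 1
    have h2 := mo_near ha hη 6 3
    have h3 := mo_near ha hη 7 5
    have h4 := mo_near ha hη 8 7
    have e1 : ‖(12 : ℂ) * (mo a 5 1 η - 1)‖ = 12 * ‖mo a 5 1 η - 1‖ := by
      rw [norm_mul, Complex.norm_ofNat]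
    have e2 : ‖(9 : ℂ) * (mo a 6 3 η - 1)‖ = 9 * ‖mo a 6 3 η - 1‖ := by
      rw [norm_mul, Complex.norm_ofNat]
    have e3 : ‖(9 / 2 : ℂ) * (mo a 7 5 η - 1)‖ = 9 / 2 * ‖mo a 7 5 η - 1‖ := by
      rw [norm_mul, norm_div, Complex.norm_ofNat, Complex.norm_ofNat]
    have e4 : ‖(15 / 16 : ℂ) * (mo a 8 7 η - 1)‖ = 15 / 16 * ‖mo a 8 7 η - 1‖ := by
      rw [norm_mul, norm_div, Complex.norm_ofNat, Complex.norm_ofNat]
    have h5 : 12 * mo a 5 1 η - 9 * mo a 6 3 η + 9 / 2 * mo a 7 5 η - 15 / 16 * mo a 8 7 η -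
        105 / 16 = 12 * (mo a 5 1 η - 1) - 9 * (mo a 6 3 η - 1) + 9 / 2 * (mo a 7 5 η - 1) -
        15 / 16 * (mo a 8 7 η - 1) := by ring
    have h6 := (norm_sub_le (12 * (mo a 5 1 η - 1) - 9 * (mo a 6 3 η - 1) +
      9 / 2 * (mo a 7 5 η - 1)) (15 / 16 * (mo a 8 7 η - 1))).trans
      (add_le_add ((norm_add_le _ _).trans (add_le_add (norm_sub_le _ _) le_rfl)) le_rfl)
    rw [e1, e2, e3, e4, ← h5] at h6
    refine h6.trans ?_
    norm_num at h1 h2 h3 h4 ⊢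
    linarith

end UDaux

/-- (UD) the stationary point and its derivatives. -/
theorem pf_UD : W_UD :=
  ⟨fun a η ha hη => UDaux.part1 ha hη, UDaux.part2, fun a ha => UDaux.part3 ha⟩

end Pool.Agent.H31.SW
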