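import Pool.Agent.H76.SW.T

/-!
Module Q1 (helper77): runs of one automaton of a family are paths of the joint automaton.
-/

set_option autoImplicit false

namespace Pool.Agent.H77.SW

open Relation Pool.Agent.H76.SW

lemma q1_fwd {A I V : Type} {c st : I → ℕ}
    (M : (i : I) → NFA ((A ⊕ Fin (c i)) × Bool) (Fin (st i))) (E : V → A → V → Prop) (i : I)
    (R : Fin (c i) → V → V → Prop) {u v : V} {w : List ((A ⊕ Fin (c i)) × Bool)}
    (h : Path (ext E R) u w v) : (∀ l ∈ w, ∃ a, l.1 = Sum.inl a) →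
    ∀ (S : Set (Fin (st i))), ∀ s' ∈ (M i).evalFrom S w,
      ∃ s ∈ S, Reach E (joint M) (u, ⟨i, s⟩) (v, ⟨i, s'⟩) := by
  induction h with
  | nil u =>
    intro _ S s' hs'
    exact ⟨s', hs', ReflTransGen.refl⟩
  | cons u v t l w hs hp ih =>
    intro hl S s' hs'
    rw [NFA.evalFrom_cons] at hs'
    obtain ⟨s1, hs1, hr⟩ := ih (fun l' hl' => hl l' (List.mem_cons_of_mem _ hl')) _ s' hs'
    rw [NFA.mem_stepSet] at hs1
    obtain ⟨s, hsS, hst⟩ := hs1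
    obtain ⟨a, ha⟩ := hl l List.mem_cons_self
    obtain ⟨l1, b⟩ := l
    simp only at ha
    subst ha
    have hstep : Step E u (a, b) v := hs
    exact ⟨s, hsS, ReflTransGen.head (b := (v, (⟨i, s1⟩ : Σ i, Fin (st i))))
      ⟨(a, b), hstep, ⟨i, s, s1, rfl, rfl, hst⟩⟩ hr⟩

lemma q1_bwd {A I V : Type} {c st : I → ℕ}
    (M : (i : I) → NFA ((A ⊕ Fin (c i)) × Bool) (Fin (st i))) (E : V → A → V → Prop) (i : I)
    (R : Fin (c i) → V → V → Prop) {x y : V × (Σ i, Fin (st i))}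
    (h : Reach E (joint M) x y) : ∀ s s' : Fin (st i), x.2 = ⟨i, s⟩ → y.2 = ⟨i, s'⟩ →
    ∃ w, Path (ext E R) x.1 w y.1 ∧ s' ∈ (M i).evalFrom {s} w := by
  induction h using ReflTransGen.head_induction_on with
  | refl =>
    intro s s' h1 h2
    rw [h1] at h2
    have h3 : s = s' := by
      have := (Sigma.mk.inj_iff.1 h2).2
      exact eq_of_heq this
    subst h3
    exact ⟨[], Path.nil _, rfl⟩
  | @head x z hxz hzy ih =>
    intro s s' h1 h2
    obtain ⟨l, hl, i', s1, s2, e1, e2, hst⟩ := hxz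
    rw [h1] at e1
    obtain ⟨e3, e4⟩ := Sigma.mk.inj_iff.1 e1
    subst e3
    have e5 := eq_of_heq e4
    subst e5
    obtain ⟨w, hw, hm⟩ := ih s2 s' e2 h2
    refine ⟨(Sum.inl l.1, l.2) :: w, Path.cons _ _ _ _ _ ?_ hw, ?_⟩
    · exact hl
    · rw [NFA.evalFrom_cons, NFA.stepSet_singleton, NFA.mem_evalFrom_iff_exists]
      exact ⟨s2, hst, hm⟩

theorem pf_Q1 : U_q1_joint := by
  intro A I V c st M E i R hM u v
  constructor
  · rintro ⟨w, hw, hp⟩
    obtain ⟨s', hs', hm⟩ := NFA.mem_accepts.1 hw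
    obtain ⟨s, hs, hr⟩ := q1_fwd M E i R hp (hM w hw) _ s' hm
    exact ⟨s, hs, s', hs', hr⟩
  · rintro ⟨s, hs, s', hs', hr⟩
    obtain ⟨w, hp, hm⟩ := q1_bwd M E i R hr s s' rfl rfl
    refine ⟨w, NFA.mem_accepts.2 ⟨s', hs', ?_⟩, hp⟩
    rw [NFA.mem_evalFrom_iff_exists]
    exact ⟨s, hs, hm⟩

end Pool.Agent.H77.SW
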